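import Pool.Agent.Lib.MP_28303a_al.NT.ER.Defs

/-! # Row RES: acyclic functors with finitely presented values at the boxes with coherent
stabilizers have finite resolutions -/

set_option autoImplicit false
set_option linter.unusedSectionVars false
set_option linter.unusedVariables false

namespace Pool.Agent.NegK.NT.ER27

universe u

open CategoryTheory Limits

/-- RES: `0 → vp M → M → zz (M | nv) → 0`, the first term is a retract of the sums of the values
at the edges. -/
theorem res (hRr : ER.RrStatement.{u}) (hZs : ER.ZsStatement.{u}) (hTr : ER.TrStatement.{u})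
    (hZr : ER.ZrStatement.{u}) (hYr : ER.YrStatement.{u}) (hGood : GoodStatement.{u}) :
    ER.ResStatement.{u} := by
  intro Γ _ T D j _ _ K hst k _ hk M hM hT
  obtain ⟨w, hS⟩ := (hZs k Γ T.Box (T.P Finset.univ) (ER.nv K) (ER.up_nv K)).1 M
  have h1 : Rsl (ER.vp (ER.up_nv K) M) :=
    hRr k Γ T.Box (T.P Finset.univ) _ _ (hTr Γ T D j K k M hT) (hYr Γ T D j K hst k hk M hM)
  have h3 : Rsl ((ER.zz (ER.up_nv K)).obj ((ER.pb k (ER.inc (T.P Finset.univ) (ER.nv K))).obj M)) :=
    hZr Γ T D j K hst k hk _ hM
  exact (hGood k Γ T.Box (T.P Finset.univ)).2.1 _ hS h1 h3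

end Pool.Agent.NegK.NT.ER27
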